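import Pool.Agent.Q180.BI.Main

/-!
# A symmetric ideal without binomial companion (MP_f9b6b5_al, Q1: the answer is no)

Let `k` be a field of characteristic zero and `I = (x + y + z) (x - y, y - z) ⊆ k[x, y, z]`. No
`k`-symmetric polynomial belongs to a minimal generating set of `I`, and the Hilbert function of `I`
differs from that of every symmetric ideal generated by monomials and binomials.

Proof. `dim I_0 = dim I_1 = 0`, `dim I_2 = 2`, `dim I_3 = 5`. Let `J` be a homogeneous symmetric ideal
generated by monomials and binomials with the same dimensions. A generator of `J` has a term of degree 2,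
so `J_2` contains a monomial or a binomial. If `J_2` contains `a x² + b y z`, with `a, b ≠ 0` (up to a
permutation of the variables), then `dim J_2 ≥ 3`; otherwise there is a transposition which fixes one of
the two monomials and moves the other one, so that `J_2` contains a difference of two squares or of two
products of variables, and by symmetry all these differences; they have no linear syzygies and
`dim J_3 ≥ 6`.
-/

set_option autoImplicit false

namespace Pool.Agent.Results.MP_f9b6b5_al.ThreeVariables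

open MvPolynomial

open Pool.Agent.Q180.BI (Homog Symm KSymm MinGen MonoBin Hilb)

/-- The statement of Q1 for the field `k`. -/
def Q1 (k : Type*) [Field k] : Prop :=
  ∀ (n : ℕ) (I : Ideal (MvPolynomial (Fin n) k)), Homog I → Symm I →
    (∀ B, MinGen B I → ∀ g ∈ B, ¬ KSymm g) →
    ∃ J : Ideal (MvPolynomial (Fin n) k), Homog J ∧ Symm J ∧ MonoBin J ∧ ∀ d, Hilb J d = Hilb I d

/-- The ideal `(x + y + z) (x - y, y - z)` of `k[x, y, z]`. -/
noncomputable def I0 (k : Type*) [Field k] : Ideal (MvPolynomial (Fin 3) k) :=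
  Ideal.span {(X 0 + X 1 + X 2) * (X 0 - X 1), (X 0 + X 1 + X 2) * (X 1 - X 2)}

theorem result (k : Type*) [Field k] [CharZero k] :
    ¬ Q1 k ∧
    Homog (I0 k) ∧ Symm (I0 k) ∧
    (∀ B, MinGen B (I0 k) → ∀ g ∈ B, ¬ KSymm g) ∧
    (∀ g ∈ I0 k, KSymm g →
      g ∈ RingHom.ker (constantCoeff : MvPolynomial (Fin 3) k →+* k) * I0 k) ∧
    ∀ J : Ideal (MvPolynomial (Fin 3) k), Homog J → Symm J → MonoBin J →
      ∃ d, Hilb J d ≠ Hilb (I0 k) d := by
  have h1 : Homog (I0 k) := Pool.Agent.Q180.BI.homog_I0
  have h2 : Symm (I0 k) := Pool.Agent.Q180.BI.symm_I0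
  have h3 : ∀ B, MinGen B (I0 k) → ∀ g ∈ B, ¬ KSymm g := fun B hB =>
    Pool.Agent.Q180.BI.not_ksymm hB
  have h4 : ∀ J : Ideal (MvPolynomial (Fin 3) k), Homog J → Symm J → MonoBin J →
      ∃ d, Hilb J d ≠ Hilb (I0 k) d := by
    intro J hH hS hB
    by_contra hcon
    push Not at hcon
    exact Pool.Agent.Q180.BI.main hH hS hB hcon
  refine ⟨fun h => ?_, h1, h2, h3, fun g hg hs => Pool.Agent.Q180.BI.ksymm_mem hg hs, h4⟩
  obtain ⟨J, hH, hS, hB, hJ⟩ := h 3 (I0 k) h1 h2 h3
  obtain ⟨d, hd⟩ := h4 J hH hS hB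
  exact hd (hJ d)

end Pool.Agent.Results.MP_f9b6b5_al.ThreeVariables
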